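import Pool.Agent.EGF.StmtsR

/-! Row CHN of squad EGF: chains. -/

set_option autoImplicit false

open Finset

namespace Pool.Agent.EGF.H55

theorem mem_pal {V : Type} [DecidableEq V] {k : ℕ} {c : V → V → Fin k} {S : Finset V}
    {a : Fin k} : a ∈ pal c S ↔ ∃ u ∈ S, ∃ v ∈ S, u ≠ v ∧ c u v = a := by
  unfold pal
  simp only [Finset.mem_image, Finset.mem_filter, Finset.mem_product, Prod.exists]
  constructor
  · rintro ⟨u, v, ⟨⟨hu, hv⟩, huv⟩, h⟩
    exact ⟨u, hu, v, hv, huv, h⟩
  · rintro ⟨u, hu, v, hv, huv, h⟩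
    exact ⟨u, v, ⟨⟨hu, hv⟩, huv⟩, h⟩

theorem pal_mono {V : Type} [DecidableEq V] {k : ℕ} {c : V → V → Fin k} {S T : Finset V}
    (h : S ⊆ T) : pal c S ⊆ pal c T := by
  intro a ha
  obtain ⟨u, hu, v, hv, huv, hc⟩ := mem_pal.1 ha
  exact mem_pal.2 ⟨u, h hu, v, h hv, huv, hc⟩

theorem card_ge {n : ℕ} (h : 3 ≤ Real.log n) : 8 ≤ n := by
  by_contra hlt
  push Not at hlt
  rcases Nat.eq_zero_or_pos n with h0 | h0
  · rw [h0] at h
    simp at h
    linarith
  · have h2 : (n : ℝ) ≤ 8 := by exact_mod_cast hlt.le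
    have h3' : (0 : ℝ) < n := by exact_mod_cast h0
    have h4 : Real.log n ≤ Real.log 8 := Real.log_le_log h3' h2
    have h5 : Real.log 8 = 3 * Real.log 2 := by
      rw [show (8 : ℝ) = 2 ^ 3 by norm_num, Real.log_pow]; norm_num
    have h6 := Real.log_two_lt_d9
    linarith

theorem chn (hmaj : MajStmt) : ChnStmt := by
  intro V _ k c W s m L hsym h3 hflat hL hs
  induction m generalizing W with
  | zero =>
    intro hlog
    have h8 : 8 ≤ W.card := card_ge (by simpa using hlog)
    obtain ⟨v, hv⟩ : W.Nonempty := Finset.card_pos.1 (by omega)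
    exact ⟨fun _ => v, fun _ => c v v, fun l hl => absurd hl (Nat.not_lt_zero l),
      fun l hl => absurd (Finset.mem_range.1 hl) (Nat.not_lt_zero l),
      fun l hl => absurd (Finset.mem_range.1 hl) (Nat.not_lt_zero l)⟩
  | succ m ih =>
    intro hlog
    have hs33 : (33 : ℝ) ≤ s := by linarith
    have hs2 : (1 : ℝ) ≤ (s : ℝ) ^ 2 := by nlinarith
    have hspos : (0 : ℝ) < (s : ℝ) ^ 2 := by linarith
    have hls : 0 ≤ Real.log ((s : ℝ) ^ 2) := Real.log_nonneg hs2
    have hlog' : 3 + ((m : ℝ) + 1) * Real.log ((s : ℝ) ^ 2) ≤ Real.log W.card := by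
      have := hlog
      push_cast at this
      exact this
    have hm0 : 0 ≤ (m : ℝ) * Real.log ((s : ℝ) ^ 2) := mul_nonneg (Nat.cast_nonneg _) hls
    have h8 : 8 ≤ W.card := card_ge (by nlinarith)
    have hmj := hmaj V k c W s L hsym hflat hL hs h8
    have h1 : (8 : ℝ) ≤ W.card := by exact_mod_cast h8
    have hne : (maj c W (1 / (s : ℝ) ^ 2)).Nonempty := by
      rw [← Finset.card_pos]
      have h2 : (0 : ℝ) < (maj c W (1 / (s : ℝ) ^ 2)).card := by linarith
      exact_mod_cast h2
    obtain ⟨x, hx⟩ := hne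
    have hxW : x ∈ W := (Finset.mem_filter.1 hx).1
    obtain ⟨a, ha⟩ := (Finset.mem_filter.1 hx).2
    have hWpos : (0 : ℝ) < W.card := by linarith
    have hW'pos : (0 : ℝ) < ((nb c W a x).card : ℝ) :=
      lt_of_lt_of_le (mul_pos (by positivity) hWpos) ha
    have hsub : nb c W a x ⊆ W := Finset.filter_subset _ _
    have hmem : ∀ y ∈ nb c W a x, y ∈ W ∧ y ≠ x ∧ c x y = a := fun y hy =>
      ⟨(Finset.mem_filter.1 hy).1, (Finset.mem_filter.1 hy).2.1, (Finset.mem_filter.1 hy).2.2⟩
    have h3' : No3 c (nb c W a x) := fun x hx y hy z hz =>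
      h3 x (hsub hx) y (hsub hy) z (hsub hz)
    have hflat' : Flat c (nb c W a x) s (L * s) := fun S hS hSc =>
      hflat S (hS.trans hsub) hSc
    have hlogW : Real.log W.card ≤ Real.log (nb c W a x).card + Real.log ((s : ℝ) ^ 2) := by
      rw [← Real.log_mul hW'pos.ne' hspos.ne']
      apply Real.log_le_log hWpos
      have h4 : (W.card : ℝ) = (1 / (s : ℝ) ^ 2 * W.card) * (s : ℝ) ^ 2 := by
        field_simp
      rw [h4]
      exact mul_le_mul_of_nonneg_right ha hspos.le
    obtain ⟨y', b', hyb, hch, hinj⟩ := ih (nb c W a x) h3' hflat' (by linarith)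
    have hax : a ∉ pal c (nb c W a x) := by
      intro h
      obtain ⟨z, hz, z', hz', hne, hc⟩ := mem_pal.1 h
      obtain ⟨hzW, hzx, hza⟩ := hmem z hz
      obtain ⟨hzW', hzx', hza'⟩ := hmem z' hz'
      exact h3 x hxW z hzW z' hzW' hzx.symm hzx'.symm hne (by rw [hza, hza']) (by rw [hc, hza])
    have hneW' : (nb c W a x).Nonempty := by
      rw [← Finset.card_pos]
      exact_mod_cast hW'pos
    refine ⟨fun l => Nat.casesOn l x y', fun l => Nat.casesOn l a b', ?_, ?_, ?_⟩
    · intro l hl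
      rcases l with _ | l
      · obtain ⟨z, hz⟩ := hneW'
        obtain ⟨hzW, hzx, hza⟩ := hmem z hz
        exact ⟨hxW, mem_pal.2 ⟨x, hxW, z, hzW, hzx.symm, hza⟩⟩
      · obtain ⟨e1, e2⟩ := hyb l (by omega)
        exact ⟨hsub e1, pal_mono hsub e2⟩
    · intro l hl i hi hli
      rcases i with _ | i
      · exact absurd hli (Nat.not_lt_zero l)
      · have hi' : i < m := by
          have := Finset.mem_range.1 hi
          omega
        rcases l with _ | l
        · obtain ⟨hzW, hzx, hza⟩ := hmem (y' i) (hyb i hi').1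
          exact ⟨hzx.symm, hza⟩
        · exact hch l (Finset.mem_range.2 (by omega)) i (Finset.mem_range.2 hi') (by omega)
    · intro l hl i hi hli
      have hl1 := Finset.mem_range.1 hl
      have hi1 := Finset.mem_range.1 hi
      rcases l with _ | l
      · rcases i with _ | i
        · rfl
        · exfalso
          have h5 : a = b' i := hli
          exact hax (h5 ▸ (hyb i (by omega)).2)
      · rcases i with _ | i
        · exfalso
          have h5 : b' l = a := hli
          exact hax (h5 ▸ (hyb l (by omega)).2)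
        · have h5 : b' l = b' i := hli
          rw [hinj l (Finset.mem_range.2 (by omega)) i (Finset.mem_range.2 (by omega)) h5]

end Pool.Agent.EGF.H55
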