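import Pool.Agent.EGF.StmtsR

/-! Row RCC of squad EGF: sampling. -/

set_option autoImplicit false

open Finset

namespace Pool.Agent.EGF.H55

theorem rcc (drf : DrfStmt) : RccStmt := by
  intro V _ k c A W Lo Up e a y t ω ξ η τ hA hUp hW ht ht1 hω hω1 hξ hη hη1 h1 h2 h3 h4
  have hAp : (0 : ℝ) < A.card := by exact_mod_cast hA.card_pos
  have hUpp : (0 : ℝ) < Up.card := by exact_mod_cast hUp.card_pos
  have hWp : (0 : ℝ) < W.card := by exact_mod_cast hW.card_pos
  have hAU : (0 : ℝ) < A.card * Up.card := mul_pos hAp hUpp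
  have hωt : 0 < ω * t := mul_pos hω ht
  have hd : 0 < ω ^ 2 * t := mul_pos (pow_pos hω 2) ht
  have hd1 : ω ^ 2 * t ≤ 1 := by
    have e1 : ω ^ 2 ≤ 1 := pow_le_one₀ hω.le hω1
    calc ω ^ 2 * t ≤ 1 * 1 := mul_le_mul e1 ht1 ht.le zero_le_one
      _ = 1 := one_mul 1
  have nbA : ∀ x, nb c A a x ⊆ A := fun x => Finset.filter_subset _ _
  have upS : ∀ x, (Up.filter fun i => c x (y i) = e) ⊆ Up := fun x => Finset.filter_subset _ _
  obtain ⟨X, hX, J, hJ, hXn, hXc, hJc, -, hG⟩ := drf V (V × ℕ) (Fin k) ℕ W (A ×ˢ Up)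
    (fun x => nb c A a x ×ˢ (Up.filter fun i => c x (y i) = e)) ∅ (fun _ => ∅) Lo
    (fun l => al c e A (y l) ×ˢ Up) (ω * t) (ω ^ 2 * t) ξ η τ hW (hA.product hUp) hωt hd hd1 hξ
    hη hη1
    (fun x _ => Finset.product_subset_product (nbA x) (upS x))
    (fun x hx => by
      simp only [Finset.card_product, Nat.cast_mul]
      have e1 := h1 x hx
      have e2 := h2 x hx
      calc ω * t * ((A.card : ℝ) * Up.card) = (t * A.card) * (ω * Up.card) := by ring
        _ ≤ ((nb c A a x).card : ℝ) * ((Up.filter fun i => c x (y i) = e).card : ℝ) :=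
          mul_le_mul e1 e2 (by positivity) (Nat.cast_nonneg _))
    (fun x _ i hi => absurd hi (Finset.notMem_empty i))
    (fun x hx => by
      refine le_trans ?_ (h3 x hx)
      refine Nat.cast_le.mpr (Finset.card_le_card fun l hl => ?_)
      rw [Finset.mem_filter] at hl ⊢
      refine ⟨hl.1, fun hc => ?_⟩
      have h := hl.2
      simp only [Finset.product_inter_product, Finset.card_product, Nat.cast_mul,
        Finset.inter_eq_left.mpr (upS x)] at h
      have e2 := h2 x hx
      have e3 : ω ^ 2 * t * ((A.card : ℝ) * Up.card) ≤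
          ((nb c A a x ∩ al c e A (y l)).card : ℝ) *
            ((Up.filter fun i => c x (y i) = e).card : ℝ) := by
        calc ω ^ 2 * t * ((A.card : ℝ) * Up.card) = (ω * t * A.card) * (ω * Up.card) := by ring
          _ ≤ _ := mul_le_mul hc e2 (by positivity) (Nat.cast_nonneg _)
      linarith)
    (by simp)
    (by
      have e1 : ((∅ : Finset (Fin k)).card : ℝ) + Lo.card = Lo.card := by simp
      rw [e1]
      exact h4)
  refine ⟨X, hX, J, hJ, hXn, ?_, hJc, ?_⟩
  · have hlog := Real.log_le_log (by positivity) hXc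
    rw [Real.log_mul (by positivity) hWp.ne', Real.log_mul (by norm_num) (by positivity),
      Real.log_pow, one_div, Real.log_inv] at hlog
    rw [one_div, Real.log_inv]
    have hl2 : Real.log 2 ≤ 1 := by
      have := Real.log_two_lt_d9
      linarith
    linarith
  · intro x hx x' hx' l hl
    have h := hG x hx x' hx' l hl
    simp only [Finset.product_inter_product, Finset.card_product, Nat.cast_mul] at h
    refine h.trans (mul_le_mul_of_nonneg_left ?_ (Nat.cast_nonneg _))
    refine Nat.cast_le.mpr (Finset.card_le_card fun i hi => ?_)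
    rw [Finset.mem_inter, Finset.mem_inter, Finset.mem_filter, Finset.mem_filter] at hi
    exact Finset.mem_filter.mpr ⟨hi.2, hi.1.1.2, hi.1.2.2⟩

end Pool.Agent.EGF.H55
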